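import Pool.Agent.Run7.h260.LQ.Eff
import Pool.Agent.Run7.h260.LQ.Sep

/-!
# Effective nonvanishing for the images of pairs over smooth complete intersections

Let `V` be a smooth complete intersection of dimension `n ≥ 1` of hypersurfaces of the degrees
`d i ≤ D` in `ℙ^(M + 1)` (for instance a smooth hypersurface) with `K_V = O(m')`, and let `B` be a
divisor with simple normal crossings on `V`, whose components are the intersections of `V` with
hypersurfaces of the degrees `b j`, so that `K_V + B = O(m)`, `m = m' + ∑ b j`. Let `V' ⇢ V` be a
generically finite dominant rational map of any degree, and let `V' ⇢ W` be a dominant rational map of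
degree `r` to any variety. Both maps are arbitrary: they are not related to each other, they need not
be quotients by groups, and their ramification is arbitrary. Let `D_W` be a reduced boundary on `W` which
contains the images of the prime divisors of (models of) `V'` over `B`.

**Theorem.** Suppose that `m ≥ 7 N + 4`, `(M + 1) N < m + M + 2`, `D + N ≤ m + 2` and `N ≤ m' + 1`. If
`k r < (N + 1) (m + 2 - N)` then `h⁰(W, K_W + D_W) ≥ k`, on any smooth model of `W`, where `D_W` contains
all exceptional prime divisors over `D_W`. For `k = 1`: `K_W + D_W` has a section if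
`r < (N + 1) (m + 2 - N)`.

So all log canonical pairs `(X, Δ)` such that `X` is birational to such a `W` and `Δ` has coefficient `1`
at the prime divisors of `X` which are in `D_W` satisfy nonvanishing, `h⁰(X, ⌊K_X + Δ⌋) > 0`, if `D_W` is a
divisor on `X`. The bound for the degree is quadratic in the degree of the pair: if `K_V = O(m')` and
`B` has degree `b` then, with `N = m' + 1`, `r` may be any number less than `(m' + 2) (b + 1)`, if
`b ≥ 6 m' + 11`, `b ≥ (M + 1) (m' + 1) - m' - M - 1` and `b ≥ D - 1`. For `m' = 0` (Calabi-Yau complete
intersections, abelian and K3 surfaces of small degree) this is `r ≤ 2 b + 1`; the classical range, in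
which any `r` points impose independent conditions on the forms of degree `m`, is `r ≤ b + 1`.

Proof. The traces on `W` of the pull-backs of the logarithmic forms `P(x) ω₁`, `deg P = m`, are
logarithmic forms on `W`. If they are all zero, then at most `r` generic points of `V` (over a large
algebraically closed field) satisfy a relation for all forms of degree `m`. By the theorems on plane
curves and the Cayley-Bacharach theorem there is a curve of degree `g ≤ N` which contains at least
`g (m + 3 - N)` of these points; since `m + 3 - N > D` it is contained in `V`. Then `V` is covered by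
curves of degree `g ≤ m' + 1`, which is impossible as the canonical forms `P(x) ω₀`, `deg P = m'`,
vanish on such curves. For `k` forms one takes `k` independent generic points of `W`.

The starting files have the case `B = ∅` for complete intersections of codimension at least two and
of large degree (project GP of helper162 and others, `MP_4329d7_ag.FormsOnImages`); this proof follows
theirs. New here: pairs, with different degrees `m'` and `m` of the two systems of forms, so that `K_V`
may be trivial and `V` may be a hypersurface; the logarithmic forms on complements of divisors with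
normal crossings (`Pool/Agent/Run7/h260/LQ/Snc.lean`) and their traces in correspondences (`Up.lean`).
-/

set_option autoImplicit false
set_option linter.overlappingInstances false

open FF MvPolynomial Pool.Agent.W602.GT

namespace Pool.Agent.Results.MP_bc213e_ag.EffectiveNonvanishing

/-- `V` is the smooth complete intersection, of dimension `n`, of the hypersurfaces `F i = 0` of degree
`d i` in projective `(M + 1)`-space, `E` is its function field and `x` its generic point, `x 0 = 1` (a
form vanishes at `x` if and only if it vanishes on `V`, that is, if it is in the radical of the ideal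
generated by the `F i`), and `B` is the sum of the intersections of `V` with the hypersurfaces
`h j = 0` of degree `b j`, which do not contain `V`. At every point of `V` the gradients of the `F i`
and of those `h j` which vanish at the point are linearly independent: `V` is smooth, and `B` has
simple normal crossings. -/
structure IsPair {M c s : ℕ} {E : Type} [Field E] [Algebra ℂ E] (n : ℕ)
    (F : Fin c → MvPolynomial (Fin (M + 2)) ℂ) (d : Fin c → ℕ)
    (h : Fin s → MvPolynomial (Fin (M + 2)) ℂ) (b : Fin s → ℕ) (x : Fin (M + 2) → E) : Prop where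
  homF : ∀ i, (F i).IsHomogeneous (d i)
  homB : ∀ j, (h j).IsHomogeneous (b j)
  crossings : ∀ z : Fin (M + 2) → ℂ, z ≠ 0 → (∀ i, eval z (F i) = 0) →
    LinearIndependent ℂ (Sum.elim (fun (i : Fin c) (l : Fin (M + 2)) => eval z (pderiv l (F i)))
      fun (j : {j // eval z (h j) = 0}) (l : Fin (M + 2)) => eval z (pderiv l (h j)))
  one : x 0 = 1
  generic : ∀ (e : ℕ) (P : MvPolynomial (Fin (M + 2)) ℂ), P.IsHomogeneous e →
    (aeval x P = 0 ↔ P ∈ (Ideal.span (Set.range F)).radical)
  gen : IntermediateField.adjoin ℂ (Set.range x) = ⊤
  proper : ∀ j, aeval x (h j) ≠ 0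
  dim : Algebra.trdeg ℂ E = n
  codim : n + c = M + 1

/-- The place `Q` is in the boundary: its centre is on one of the hypersurfaces `h j = 0`, that is, one
of the functions `h j (x) / x l ^ (b j)` vanishes at `Q`. -/
def Boundary {M s : ℕ} {E : Type} [Field E] [Algebra ℂ E]
    (h : Fin s → MvPolynomial (Fin (M + 2)) ℂ) (b : Fin s → ℕ) (x : Fin (M + 2) → E)
    (Q : Place ℂ E) : Prop :=
  ∃ j l, x l ≠ 0 ∧ (b j : ℤ) * Q.ord (x l) < Q.ord (aeval x (h j))

theorem IsPair.low {M c s n m m' D : ℕ} {E : Type} [Field E] [Algebra ℂ E]
    {F : Fin c → MvPolynomial (Fin (M + 2)) ℂ} {d : Fin c → ℕ}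
    {h : Fin s → MvPolynomial (Fin (M + 2)) ℂ} {b : Fin s → ℕ} {x : Fin (M + 2) → E}
    (hV : IsPair n F d h b x) (hn : 1 ≤ n) (hd : ∀ i, d i ≤ D) (hm' : m' + M + 2 = ∑ i, d i)
    (hm : m = m' + ∑ j, b j) :
    1 ≤ M ∧ Pool.Agent.Run7.h260.LQ.LowDegreePair n m m' D (Boundary h b x) x := by
  have hc : c ≠ 0 := by
    rintro rfl
    simp at hm'
  have hD : 1 ≤ D := by
    by_contra hD
    have h1 : ∑ i, d i = 0 := Finset.sum_eq_zero fun i _ => by
      have := hd i
      omega
    omega
  have hM : 1 ≤ M := by
    have := hV.codim
    omega
  have hCI : Pool.Agent.N162.GP.SmoothCI F d x :=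
    ⟨hV.homF, fun z hz h0 => (hV.crossings z hz h0).comp Sum.inl Sum.inl_injective, hV.one,
      hV.generic, hV.gen⟩
  exact ⟨hM, Pool.Agent.Run7.h260.LQ.pair_of_snc hCI hV.homB hV.crossings hV.proper hn hV.dim
    hV.codim hm' hm hd hD⟩

/-- **Effective nonvanishing.** Let `(V, B)` be a smooth complete intersection of dimension `n ≥ 1` with
a divisor with simple normal crossings, `K_V = O(m')`, `K_V + B = O(m)`, `E` the function field of `V`.
Let `K` be a finite extension of `E` (the function field of `V'`), and a finite extension of `L` (the
function field of `W`), and `BL` a set of places of `L` (the boundary of `W`) which contains all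
places below places of `K` over `B`. Let `m ≥ 7 N + 4`, `(M + 1) N < m + M + 2`, `D + N ≤ m + 2`,
`N ≤ m' + 1`, and `k [K : L] < (N + 1) (m + 2 - N)`. Then there are `k` linearly independent canonical
forms on `W` with at most logarithmic poles, which are regular at the prime divisors outside `BL`. -/
theorem result {n M c s D m m' N k : ℕ} (hn : 1 ≤ n) {E : Type} [Field E] [Algebra ℂ E]
    {F : Fin c → MvPolynomial (Fin (M + 2)) ℂ} {d : Fin c → ℕ}
    {h : Fin s → MvPolynomial (Fin (M + 2)) ℂ} {b : Fin s → ℕ} {x : Fin (M + 2) → E}
    (hV : IsPair n F d h b x) (hd : ∀ i, d i ≤ D) (hm' : m' + M + 2 = ∑ i, d i)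
    (hm : m = m' + ∑ j, b j) (h1 : 7 * N + 4 ≤ m) (h2 : (M + 1) * N < m + M + 2)
    (h3 : D + N ≤ m + 2) (h4 : N ≤ m' + 1)
    (K : Type) [Field K] [Algebra ℂ K] [Algebra E K] [IsScalarTower ℂ E K] [FiniteDimensional E K]
    (L : Type) [Field L] [Algebra ℂ L] [Algebra L K] [IsScalarTower ℂ L K] [FiniteDimensional L K]
    (BL : Place ℂ L → Prop)
    (hBL : ∀ (P : Place ℂ L) (Q : Place ℂ K) (R : Place ℂ E) (e e' : ℕ), Over Q P e →
      Over Q R e' → Boundary h b x R → BL P)
    (hr : k * Module.finrank L K < (N + 1) * (m + 2 - N)) :
    ∃ η : Fin k → ((Fin n → Derivation ℂ L L) → L), LinearIndependent ℂ η ∧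
      ∀ j, LogSec ℂ L n 1 BL (η j) := by
  obtain ⟨hM, hlow⟩ := hV.low hn hd hm' hm
  haveI : Algebra.EssFiniteType ℂ E := Pool.Agent.N162.GP.ess_of_gen hV.gen
  haveI : Algebra.EssFiniteType ℂ K := Algebra.EssFiniteType.comp ℂ E K
  haveI : Algebra.EssFiniteType ℂ L := Pool.Agent.TH466.QG.ess_below (K := K)
  obtain ⟨ω₀, hadj⟩ := hlow.forms
  obtain ⟨ω₁, hpl, hne, hsec⟩ := hlow.logForms
  exact Pool.Agent.Run7.h260.LQ.lforms_k hM h1 h2 h3 h4 hlow.one hlow.gen hlow.dim hlow.cut hadj hn
    hBL hpl hne hsec hr

end Pool.Agent.Results.MP_bc213e_ag.EffectiveNonvanishing
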