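import Pool.Agent.Run7.h528.NR.Main
import Pool.Agent.Run7.h528.NN.Log
import Pool.Agent.N110.RK.Stat
import Pool.Agent.N110.Can
import Pool.Agent.N110.IM.Img
import Pool.Agent.N110.IM.Defs
import Pool.Agent.N110.NV.Fin
import Pool.Agent.R887.NefP
import Pool.Agent.R887.Exc

/-!
Pairs dominated by a pair with a nilpotent group of birational self-maps of maximal growth rank:
nonvanishing.
-/

set_option autoImplicit false

open FF Pool.Agent.W602.GT Pool.Agent.Y172 Pool.Agent.R887 Pool.Agent.N110 Run7.h528.NR
open Run7.h528.NN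

/-- Let `(X, Δ)` be a pair, `X` a normal projective variety of dimension `n ≥ 1` and `Δ ≥ 0` a
`ℚ`-divisor (for instance a log canonical pair). Suppose that it is dominated by a pair `(X', Δ')` of
dimension `n` (`Δ'` need not be effective): there is a dominant rational map `X' ⇢ X`, generically
finite, given by the homomorphism `π` of the function fields, such that the pull back of `K_X + Δ` is
at most `K_X' + Δ'` over the prime divisors of `X'`. For instance let `X` be the quotient of `X'` by a
finite group and `K_X' + Δ'` the pull back of `K_X + Δ`, or let `X = X'` and `Δ = Δ'`.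

Let `f_1, ..., f_{n-1}` be birational self-maps of `X'` which generate a nilpotent group `G` (not
necessarily abelian), and which have nothing to do with the map `X' ⇢ X`; the elements of `G`
preserve `K_X' + Δ'` (over the prime divisors of `X'` the divisor `g^* (K_X' + Δ')` is at most
`K_X' + Δ'`), or `Δ' = 0` and `X'` has canonical singularities. Suppose that the group has maximal
rank: for `v` in `ℤ ^ (n-1)` the degree `g_v^* H · H ^ (n - 1)` of the map `g_v` of `X'` with
`g_v^* = f_1^* ^ (v_1) ... f_{n-1}^* ^ (v_{n-1})` (a product in this order) is at least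
`c exp (δ |v|)` for some `c, δ > 0`. More generally `r` maps are allowed if the growth rank of the
degrees is at least `s`; then the numerical dimension of `K_X + Δ` is at most `n - 1 - s`, and it is
equal to the Kodaira dimension if the latter is at least `n - 1 - s`.

Let `K_X + Δ` be nef. Then it is numerically trivial; nothing is assumed about the irregularity of `X`
here (the hypothesis `NeronSeveri y`, used only for this, is the theorem of Néron and Severi that the
group of the divisors modulo numerical equivalence is finitely generated).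

Suppose that the irregularity of `X` is zero. Then `K_X + Δ` is pseudo-effective if and only if it is
`ℚ`-effective: some multiple `m (K_X + Δ)`, `m ≥ 1`, has a section `ω ≠ 0`. In this case the Kodaira
dimension and the numerical dimension of `K_X + Δ` are zero, also for the numerical dimension defined
by the number of the sections of `m (K_X + Δ) + A`. If `K_X + Δ` is nef, then it is torsion: the
section `ω` has no zeros. -/
theorem Pool.Agent.Results.MP_bc213e_ag.NilpotentCovered.result
    {K K' : Type} [Field K] [Algebra ℂ K] [Field K'] [Algebra ℂ K'] {N N' n : ℕ}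
    {y : Fin (N + 1) → K} {y' : Fin (N' + 1) → K'} (hy : NormalModel y) (hy' : NormalModel y')
    (hn : Algebra.trdeg ℂ K = n) (hn' : Algebra.trdeg ℂ K' = n) (hn0 : 0 < n)
    {Δ' : Place ℂ K' → ℚ} (hΔ' : {P | IsPrimeDivisor y' P ∧ Δ' P ≠ 0}.Finite) {r s : ℕ}
    (hs : 0 < s) (f : Fin r → (K' ≃ₐ[ℂ] K'))
    (hnil : Group.IsNilpotent (Subgroup.closure (Set.range f)))
    (hP : (∀ g ∈ Subgroup.closure (Set.range f), PullLe g y' n Δ') ∨ (Δ' = 0 ∧ Canonical y' n))
    (hrank : GrowthRankGe (nprod f) y' n s ∨ (s = r ∧ ExpGrowth (nprod f) y' n))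
    {Δ : Place ℂ K → ℚ} (hΔ : Effective y Δ) (π : K →ₐ[ℂ] K')
    (hπ : IM.ImagePullLe π y n Δ y' Δ') :
    s < n ∧ NumDimLt y n Δ (n - s) ∧ ¬ KappaGe y n Δ (n - s) ∧
      (KappaGe y n Δ (n - s - 1) → Abundant y n Δ) ∧
      (s + 1 = n → NeronSeveri y → LogNef y n Δ → NumTrivial y n Δ) ∧
      (s + 1 = n → IrregularityZero y → LogPsef y n Δ →
        kodairaDim y n Δ = ((0 : ℕ) : WithBot ℕ) ∧
          (∀ A, Effective y A → Integral y A → numericalDim y n Δ A = ((0 : ℕ) : EReal)) ∧
          ∃ m : ℕ, 1 ≤ m ∧ ∃ ω : (Fin n → Derivation ℂ K K) → K, IsSection y n m (m • Δ) ω ∧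
            ω ≠ 0 ∧ (LogNef y n Δ → ∀ P, IsPrimeDivisor y P → OrdEq P ω (-(m * Δ P)))) := by
  have hP' : ∀ g ∈ Subgroup.closure (Set.range f), PullLe g y' n Δ' := by
    rcases hP with h | ⟨rfl, hcan'⟩
    · exact h
    · exact fun g _ => pullLe_canonical hy' hn' hcan' g
  have hrank' : GrowthRankGe (nprod f) y' n s := by
    rcases hrank with h | ⟨rfl, h⟩
    · exact h
    · exact RK.growthRank_of_exp h
  obtain ⟨h1, h2'⟩ := nil_main hy' hn' hn0 hΔ' hs f hnil hP' hrank'
  have h2 := IM.numDimLt_img hy hy' hn hn' π hπ (Nat.sub_le _ _) h2'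
  refine ⟨h1, h2, ?_, fun h => ⟨n - s - 1, h, ?_⟩, fun h3 hN hnef => ?_, ?_⟩
  · rintro ⟨m, hm, ω, E, hω, h0, hind⟩
    exact kappa_lt hy hn (Nat.sub_le _ _) h2 hm hω h0 hind
  · rwa [show n - s - 1 + 1 = n - s by omega]
  · rw [show n - s = 1 by omega] at h2
    exact nef_numTrivial hy hn hn0 hN hΔ.2 hnef h2
  · intro h3 hq hpsef
    rw [show n - s = 1 by omega] at h2
    obtain ⟨m, hm, ω, hω0, hω⟩ := NV.nonvanishing hy hn hn0 hΔ.2 hpsef h2 hq
    obtain ⟨h5, h6⟩ := abundance_zero hy hn hn0 hΔ h2 hm hω hω0
    exact ⟨h5, h6, m, hm, ω, hω, hω0, fun hnef P hP =>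
      nef_trivialP hy hn hn0 h2 hnef hm hω hω0 P hP⟩
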