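import Pool.Agent.Run7.h260.LQ.Prod

/-!
# Nonvanishing for varieties dominated by products of pairs and an open curve

Let `X° i`, `i < k`, be open varieties over `ℂ` of the following types, of dimension `n i`, and `U` a smooth
curve, open or projective and of any genus.

* (a) `X° i` belongs to a pair `(V, B)` in `ℙ^(M + 1)` such that `V` is cut out by equations of degree at
  most `D`, and has the regular canonical forms `P(x) ω₀` for all forms `P` of degree `m'`, and the
  sections `P(x) ω₁` of `K_V + B` for all forms `P` of degree `m` (`LowDegreePair`). This is so for
  smooth complete intersections `V` with divisors `B` with simple normal crossings and `K_V = O(m')`,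
  `K_V + B = O(m)`: see `pair_of_snc` in `Pool/Agent/Run7/h260/LQ/Sep.lean`. For some `N` one has
  `m ≥ 7 N + 4`, `(M + 1) N < m + M + 2`, `D + N ≤ m + 2`, `N ≤ m' + 1`; put `g i = (N + 1) (m + 2 - N)`.
* (b) `X° i` is an open subset of a complete intersection without boundary with such numbers,
  `m' = m`, or of a curve of gonality at least `g i` (`Factor`).

Let `V° = X° 0 × ... × X° (k - 1) × U ⇢ W°` be a dominant rational map of finite degree which is proper in
the sense that a prime divisor over `V°` has a centre on `V°` if and only if its image has a centre on
`W°`. It need not be related to the product structure, and it need not be the quotient by a group. Let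
`W_i` be the image of `V°` in `W × X 0 × ... × X (i - 1)`, and let `d i` be the degree over `W_i` of the
image of `V` in `W_i × X i`; the product of the `d i` is at most the degree of `V° ⇢ W°`.

**Theorem.** If `d i < g i` for all `i`, then these are equivalent: `W°` has no logarithmic canonical
form; it has no logarithmic pluricanonical form; its log canonical divisor is not pseudo-effective;
it is `A¹`-uniruled.

So all log canonical pairs `(Y, Δ)`, `Δ` reduced, such that `Y - Δ` is smooth and is such a `W°`, satisfy
nonvanishing: if `K_Y + Δ` is pseudo-effective then `h⁰(Y, K_Y + Δ) > 0`. The classical range for the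
factors of type (a), in which all `d i` points impose independent conditions on the forms of degree
`m`, is `d i ≤ m + 1`; here it is quadratic in the degree of the boundary.

Proof. A relation between the values of the logarithmic forms at less than `(N + 1) (m + 2 - N)`
generic points of `V` would give a covering of `V` by curves of degree at most `N ≤ m' + 1`, on which
the canonical forms of `V` vanish (`Pool/Agent/Run7/h260/LQ/Sep.lean`, new). The theorem for factors whose
logarithmic forms separate points is `N145.SX.multi_zero` (`MP_66b48b_ag.OpenProductsGenusZero` of the
starting files).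
-/

set_option autoImplicit false
set_option linter.overlappingInstances false

open FF Module Pool.Agent.W602.GT
open Pool.Agent.W619.PL (IsA1Uniruled)
open Pool.Agent.R882.LT (LogGenusZero)
open Pool.Agent.Run7.h260.LQ (PairFactor ProductBoundary)
open Pool.Agent.N162.GQ (deg)

namespace Pool.Agent.Results.MP_bc213e_ag.ProductsOfPairs

/-- **Nonvanishing for varieties dominated by products of pairs and an open curve.** Let `K` be the
function field of the product of the varieties with the function fields `F i`, `i < k`, of dimension
`n i`, with the boundaries `BX i`, of one of the two types above (`PairFactor`), and of the curve with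
the function field `F k` and the finite boundary `B`. Let `K` be finite over the function field `L` of
`W`, and `BL` the boundary of `W`: for all places `Q` of `K` over a place `P` of `L`, `P` is in `BL` if and
only if `Q` has no centre on the product. If `d i < g i` for all `i < k` (`deg`), then these are
equivalent: the logarithmic geometric genus of `W` is zero; the logarithmic Kodaira dimension is `-∞`;
the log canonical divisor is not pseudo-effective; `W` is `A¹`-uniruled. -/
theorem result {K : Type} [Field K] [Algebra ℂ K] [Algebra.EssFiniteType ℂ K] {k : ℕ}
    {n g : Fin k → ℕ} {F : Fin (k + 1) → IntermediateField ℂ K} [IsFF ℂ (F (Fin.last k))]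
    {BX : ∀ i : Fin k, Place ℂ (F i.castSucc) → Prop}
    (hE : ∀ i : Fin k, PairFactor (F i.castSucc) (n i) (g i) (BX i))
    (hF : ⨆ i, F i = ⊤) (hK : Algebra.trdeg ℂ K = ((∑ i, n i) + 1 : ℕ))
    {B : Set (Place ℂ (F (Fin.last k)))} (hBf : B.Finite)
    (L : Type) [Field L] [Algebra ℂ L] [Algebra L K] [IsScalarTower ℂ L K] [FiniteDimensional L K]
    {BL : Place ℂ L → Prop}
    (hB : ∀ (P : Place ℂ L) (Q : Place ℂ K) (e : ℕ), Over Q P e →
      (BL P ↔ ProductBoundary BX B Q))
    (hr : ∀ i : Fin k, deg F L i.castSucc < g i) :
    [LogGenusZero L ((∑ i, n i) + 1) BL, ¬ KodGe ℂ L ((∑ i, n i) + 1) BL 0,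
      ¬ Psef ℂ L ((∑ i, n i) + 1) BL, IsA1Uniruled ℂ L ((∑ i, n i) + 1) BL].TFAE :=
  Pool.Agent.Run7.h260.LQ.prod_genus hE hF hK hBf hB hr

end Pool.Agent.Results.MP_bc213e_ag.ProductsOfPairs
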